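import Pool.Agent.L0h45.NF.Stm

/-!
# Basic facts for project NF
-/

set_option autoImplicit false

open NumberField

namespace Pool.Agent.L0h45.NF

open Pool.Agent.L0h45.AR (Q4)

variable {F : Type} [Field F] [NumberField F]

theorem card_emb : Fintype.card (F →+* ℂ) = Module.finrank ℚ F := by
  rw [← AlgHom.card ℚ F ℂ]
  exact Fintype.card_congr (RingHom.equivRatAlgHom F ℂ)

/-- the product of the conjugates -/
theorem prod_norm (a : 𝓞 F) : ∏ σ : F →+* ℂ, ‖σ (a : F)‖ = Nm a := by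
  have h1 := Algebra.norm_eq_prod_embeddings ℚ ℂ (a : F)
  rw [← Algebra.coe_norm_int a] at h1
  have h2 : Nm a = ‖algebraMap ℚ ℂ ((Algebra.norm ℤ a : ℤ) : ℚ)‖ := by
    unfold Nm
    rw [Ideal.absNorm_span_singleton, eq_ratCast, Rat.cast_intCast, Complex.norm_intCast,
      Nat.cast_natAbs]
    push_cast
    rfl
  rw [h2, h1, norm_prod]
  exact Fintype.prod_equiv (RingHom.equivRatAlgHom F ℂ) _ _ fun σ => rfl

theorem Nm_pos {a : 𝓞 F} (h : a ≠ 0) : 0 < Nm a := by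
  rw [← prod_norm]
  refine Finset.prod_pos fun σ _ => norm_pos_iff.2 ((map_ne_zero σ).2 ?_)
  exact_mod_cast h

theorem NI_ge_one {𝔞 : Ideal (𝓞 F)} (h : 𝔞 ≠ ⊥) : 1 ≤ NI 𝔞 := by
  unfold NI
  have h1 : Ideal.absNorm 𝔞 ≠ 0 := by
    rw [Ne, Ideal.absNorm_eq_zero_iff]
    exact h
  exact_mod_cast Nat.one_le_iff_ne_zero.2 h1

theorem Nm_eq_NI (a : 𝓞 F) : Nm a = NI (Ideal.span {a}) := rfl

theorem Nm_ge_one {a : 𝓞 F} (h : a ≠ 0) : 1 ≤ Nm a := by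
  rw [Nm_eq_NI]
  apply NI_ge_one
  rwa [Ne, Ideal.span_singleton_eq_bot]

theorem NI_mul (𝔞 𝔟 : Ideal (𝓞 F)) : NI (𝔞 * 𝔟) = NI 𝔞 * NI 𝔟 := by
  unfold NI
  rw [map_mul]
  push_cast
  rfl

/-- a smaller ideal has a larger norm -/
theorem NI_le_of_le {𝔞 𝔟 : Ideal (𝓞 F)} (h : 𝔟 ≤ 𝔞) (hb : 𝔟 ≠ ⊥) : NI 𝔞 ≤ NI 𝔟 := by
  have h1 : 𝔞 ∣ 𝔟 := Ideal.dvd_iff_le.2 h
  have h2 : Ideal.absNorm 𝔞 ∣ Ideal.absNorm 𝔟 := map_dvd Ideal.absNorm h1
  have h3 : Ideal.absNorm 𝔟 ≠ 0 := by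
    rw [Ne, Ideal.absNorm_eq_zero_iff]
    exact hb
  unfold NI
  exact_mod_cast Nat.le_of_dvd (Nat.pos_of_ne_zero h3) h2

theorem NI_le_Nm {𝔞 : Ideal (𝓞 F)} {a : 𝓞 F} (h : a ∈ 𝔞) (h0 : a ≠ 0) : NI 𝔞 ≤ Nm a := by
  rw [Nm_eq_NI]
  apply NI_le_of_le
  · rwa [Ideal.span_singleton_le_iff_mem]
  · rwa [Ne, Ideal.span_singleton_eq_bot]

theorem Nm_mul (a b : 𝓞 F) : Nm (a * b) = Nm a * Nm b := by
  rw [← prod_norm, ← prod_norm, ← prod_norm, ← Finset.prod_mul_distrib]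
  refine Finset.prod_congr rfl fun σ _ => ?_
  rw [← norm_mul, ← map_mul]
  rfl

theorem Nm_le {a : 𝓞 F} {R : ℝ} (h : Bd a R) : Nm a ≤ R ^ Module.finrank ℚ F := by
  rw [← prod_norm, ← card_emb (F := F), ← Finset.card_univ, ← Finset.prod_const]
  exact Finset.prod_le_prod (fun σ _ => norm_nonneg _) fun σ _ => h σ

theorem Bd.mono {a : 𝓞 F} {R R' : ℝ} (h : Bd a R) (hR : R ≤ R') : Bd a R' := fun σ => (h σ).trans hR

theorem Bd.add {a b : 𝓞 F} {R R' : ℝ} (h : Bd a R) (h' : Bd b R') : Bd (a + b) (R + R') := by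
  intro σ
  have h1 : σ ((a + b : 𝓞 F) : F) = σ (a : F) + σ (b : F) := by
    rw [← map_add]; rfl
  rw [h1]
  exact (norm_add_le _ _).trans (add_le_add (h σ) (h' σ))

theorem Bd.sub {a b : 𝓞 F} {R R' : ℝ} (h : Bd a R) (h' : Bd b R') : Bd (a - b) (R + R') := by
  intro σ
  have h1 : σ ((a - b : 𝓞 F) : F) = σ (a : F) - σ (b : F) := by
    rw [← map_sub]; rfl
  rw [h1]
  exact (norm_sub_le _ _).trans (add_le_add (h σ) (h' σ))

theorem Bd.mul {a b : 𝓞 F} {R R' : ℝ} (h : Bd a R) (h' : Bd b R') : Bd (a * b) (R * R') := by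
  intro σ
  have h1 : σ ((a * b : 𝓞 F) : F) = σ (a : F) * σ (b : F) := by
    rw [← map_mul]; rfl
  rw [h1, norm_mul]
  exact mul_le_mul (h σ) (h' σ) (norm_nonneg _) ((norm_nonneg _).trans (h σ))

/-- a nonzero integer has a conjugate of absolute value at least one -/
theorem Bd.one_le {a : 𝓞 F} {R : ℝ} (h0 : a ≠ 0) (h : Bd a R) : 1 ≤ R := by
  have h1 := (Nm_ge_one h0).trans (Nm_le h)
  obtain ⟨σ⟩ : Nonempty (F →+* ℂ) := inferInstance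
  have hR : 0 ≤ R := (norm_nonneg _).trans (h σ)
  by_contra hlt
  push Not at hlt
  have h2 : R ^ Module.finrank ℚ F < 1 := pow_lt_one₀ hR hlt Module.finrank_pos.ne'
  linarith

end Pool.Agent.L0h45.NF
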