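import Pool.Agent.L0h45.NF.Step

/-!
# CLS: the number of classes of forms with bounded denominators and given invariant `I`
-/

set_option autoImplicit false
set_option linter.all false

open NumberField Finset
open scoped Classical

namespace Pool.Agent.L0h45.NF

open Pool.Agent.L0h45.AR (Q4)
open Pool.Agent.L0h50.NR (DenQ)

/-- the statement -/
def S_CL : Prop := ∀ (F : Type) [Field F] [NumberField F] (M : ℕ), 0 < M → ∃ C : ℝ, 0 < C ∧
  ∀ (T : ℝ) (ν : F) (S : Finset (Q4 F)), 1 ≤ T →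
  (∀ G ∈ S, (G.I ≠ 0 ∨ G.J ≠ 0) ∧ Pool.Agent.L0h50.NR.NoRoot G ∧ DenQ M G ∧ G.I = ν ∧
    ∀ w : InfinitePlace F, w G.I ^ 3 + w G.J ^ 2 ≤ T ^ 6) →
  (∀ G ∈ S, ∀ H ∈ S, G ≠ H → ¬ Pool.Agent.L0h50.NR.Eqv G H) →
  (S.card : ℝ) ≤ C * (T ^ Module.finrank ℚ F) ^ 3

section

variable {F : Type} [Field F] [NumberField F]

theorem det_sub_I {R : Type} [CommRing R] (G : Q4 R) {p q r s : R} (h : p * s - q * r = 1) :
    (G.sub p q r s).I = G.I := by
  have h1 : (G.sub p q r s).I = (p * s - q * r) ^ 4 * G.I := by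
    simp only [Q4.I, Q4.sub]
    ring
  rw [h1, h, one_pow, one_mul]

theorem toF_inj {G H : Q4 (𝓞 F)} (h : toF G = toF H) : G = H := by
  have hinj : Function.Injective (algebraMap (𝓞 F) F) := RingOfIntegers.coe_injective
  ext1
  · exact hinj (congrArg Q4.a h)
  · exact hinj (congrArg Q4.b h)
  · exact hinj (congrArg Q4.c h)
  · exact hinj (congrArg Q4.d h)
  · exact hinj (congrArg Q4.e h)

theorem scl_inj {c : F} (hc : c ≠ 0) {G H : Q4 F} (h : scl c G = scl c H) : G = H := by
  ext1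
  · exact mul_left_cancel₀ hc (congrArg Q4.a h)
  · exact mul_left_cancel₀ hc (congrArg Q4.b h)
  · exact mul_left_cancel₀ hc (congrArg Q4.c h)
  · exact mul_left_cancel₀ hc (congrArg Q4.d h)
  · exact mul_left_cancel₀ hc (congrArg Q4.e h)

theorem Box.mono {L L' : ℝ} (h : L ≤ L') {j : ℕ} {G : Q4 (𝓞 F)} (hG : Box L j G) : Box L' j G := by
  obtain ⟨h1, h2, h3, h4, h5⟩ := hG
  refine ⟨h1.mono ?_, h2.mono ?_, h3.mono h, h4.mono ?_, h5.mono ?_⟩
  · gcongr
  · gcongr
  · gcongr
  · gcongr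

theorem geo (I : Finset ℕ) : ∑ i ∈ I, (1 / 4 : ℝ) ^ i ≤ 4 / 3 := by
  have h1 : Summable fun i : ℕ => (1 / 4 : ℝ) ^ i :=
    summable_geometric_of_lt_one (by norm_num) (by norm_num)
  have h2 := h1.sum_le_tsum I fun i _ => by positivity
  rw [tsum_geometric_of_lt_one (by norm_num) (by norm_num)] at h2
  norm_num at h2
  exact h2

/-- two matrices -/
theorem eqv_of_eq {G G' : Q4 F} {p q r s p' q' r' s' : F} (h : p * s - q * r = 1)
    (h' : p' * s' - q' * r' = 1) (he : G.sub p q r s = G'.sub p' q' r' s') :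
    Pool.Agent.L0h50.NR.Eqv G G' := by
  refine ⟨p * s' + q * (-r'), p * (-q') + q * p', r * s' + s * (-r'), r * (-q') + s * p', ?_, ?_⟩
  · linear_combination (p' * s' - q' * r') * h + h'
  · rw [← Q4.sub_sub, he, Q4.sub_sub]
    have e1 : p' * s' + q' * (-r') = 1 := by linear_combination h'
    have e2 : p' * (-q') + q' * p' = 0 := by ring
    have e3 : r' * s' + s' * (-r') = 0 := by ring
    have e4 : r' * (-q') + s' * p' = 1 := by linear_combination h'
    rw [e1, e2, e3, e4, Q4.sub_one]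

/-- **CLS** -/
theorem cl (hS : S_ST) (hB : S_BOXI) (hU : S_UNI) : S_CL := by
  intro F _ _ M hM
  obtain ⟨C, m, hC, hm, hS⟩ := hS F M hM
  obtain ⟨C', hC', hB⟩ := hB F
  obtain ⟨c, hc, hU⟩ := hU F
  set n := Module.finrank ℚ F with hn
  have hn1 : 1 ≤ n := Module.finrank_pos
  set D : ℝ := max C 1 with hD
  have hD1 : 1 ≤ D := le_max_right _ _
  have hDC : C ≤ D := le_max_left _ _
  refine ⟨C' * (D ^ n) ^ 3 / c * (4 / 3), by positivity, ?_⟩
  intro T ν S hT hG hne
  have hT0 : 0 < T := by linarith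
  have hch : ∀ G ∈ S, ∃ (j : ℕ) (p q r s : F) (H : Q4 (𝓞 F)), p * s - q * r = 1 ∧
      toF H = scl (m : F) (G.sub p q r s) ∧
      ∀ k : 𝓞 F, Bd k (4 ^ j) → Box (C * T) j (H.sub 1 k 0 1) := by
    intro G hGS
    obtain ⟨h1, h2, h3, h4, h5⟩ := hG G hGS
    obtain ⟨j, p, q, r, s, H, e1, e2, e3⟩ := hS T G hT0 h1 h3 h5
    exact ⟨j, p, q, r, s, H, e1, e2, e3⟩
  haveI : Nonempty (Q4 (𝓞 F)) := ⟨⟨0, 0, 0, 0, 0⟩⟩
  choose! j p q r s H h1 h2 h3 using hch
  have hmF : (m : F) ≠ 0 := by exact_mod_cast hm.ne'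
  -- one level
  have hlev : ∀ i : ℕ, ((S.filter fun G => j G = i).card : ℝ) ≤ C' * (D ^ n) ^ 3 / c * (T ^ n) ^ 3 * (1 / 4) ^ i := by
    intro i
    obtain ⟨hfin, hK⟩ := hU (4 ^ i) (one_le_pow₀ (by norm_num))
    rcases (S.filter fun G => j G = i).eq_empty_or_nonempty with h0 | ⟨G₀, hG₀⟩
    · rw [h0, Finset.card_empty, Nat.cast_zero]
      positivity
    set Kf := hfin.toFinset with hKf
    have hmem : ∀ k, k ∈ Kf ↔ Bd k (4 ^ i) := by
      intro k
      rw [hKf, Set.Finite.mem_toFinset]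
      rfl
    have hKc : c * ((4 : ℝ) ^ i) ^ n ≤ (Kf.card : ℝ) := by
      rw [hKf, ← Set.ncard_eq_toFinset_card _ hfin]
      exact hK
    have hX := hB i (D * T) (by nlinarith) (H G₀).I
      (((S.filter fun G => j G = i) ×ˢ Kf).image fun z => (H z.1).sub 1 z.2 0 1) ?_
    · rw [Finset.card_image_of_injOn, Finset.card_product] at hX
      · push_cast at hX
        have h4 : (1 : ℝ) ≤ 4 ^ i := one_le_pow₀ (by norm_num)
        have h5 : (4 : ℝ) ^ i ≤ (4 ^ i) ^ n := by
          calc (4 : ℝ) ^ i = (4 ^ i) ^ 1 := (pow_one _).symm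
            _ ≤ (4 ^ i) ^ n := pow_le_pow_right₀ h4 hn1
        have h6 : ((S.filter fun G => j G = i).card : ℝ) * (c * 4 ^ i) ≤ C' * ((D * T) ^ n) ^ 3 := by
          refine le_trans ?_ hX
          apply mul_le_mul_of_nonneg_left _ (Nat.cast_nonneg _)
          exact (mul_le_mul_of_nonneg_left h5 hc.le).trans hKc
        have h7 : ((S.filter fun G => j G = i).card : ℝ) ≤ C' * ((D * T) ^ n) ^ 3 / (c * 4 ^ i) := by
          rw [le_div_iff₀ (by positivity)]
          exact h6
        refine h7.trans (le_of_eq ?_)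
        rw [mul_pow D T n, mul_pow, one_div_pow]
        field_simp
      · intro z hz z' hz' he
        rw [Finset.mem_coe, Finset.mem_product, Finset.mem_filter] at hz hz'
        obtain ⟨⟨hz1, hz2⟩, hz3⟩ := hz
        obtain ⟨⟨hz1', hz2'⟩, hz3'⟩ := hz'
        have he' : (H z.1).sub 1 z.2 0 1 = (H z'.1).sub 1 z'.2 0 1 := he
        have hGG : z.1 = z'.1 := by
          by_contra hne'
          apply hne z.1 hz1 z'.1 hz1' hne'
          have e1 := congrArg toF he'
          rw [toF_sub', toF_sub', h2 _ hz1, h2 _ hz1', scl_sub, scl_sub] at e1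
          have e2 := scl_inj hmF e1
          rw [Q4.sub_sub, Q4.sub_sub] at e2
          refine eqv_of_eq ?_ ?_ e2
          · have := h1 z.1 hz1
            simp only [map_one, map_zero]
            linear_combination this
          · have := h1 z'.1 hz1'
            simp only [map_one, map_zero]
            linear_combination this
        have ha : (H z.1).a ≠ 0 := by
          intro h0
          have e1 := congrArg Q4.a (h2 z.1 hz1)
          have e2 : (toF (H z.1)).a = 0 := by
            show algebraMap (𝓞 F) F (H z.1).a = 0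
            rw [h0]
            exact map_zero _
          rw [e2] at e1
          have e3 : (z.1.sub (p z.1) (q z.1) (r z.1) (s z.1)).a = 0 := by
            have e4 : (m : F) * (z.1.sub (p z.1) (q z.1) (r z.1) (s z.1)).a = 0 := e1.symm
            rcases mul_eq_zero.1 e4 with e5 | e5
            · exact absurd e5 hmF
            · exact e5
          exact (hG z.1 hz1).2.1 _ ⟨_, _, _, _, h1 z.1 hz1, rfl⟩ e3
        rw [← hGG] at he'
        rw [Q4.sub_uni, Q4.sub_uni] at he'
        have e1 := congrArg Q4.b he'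
        have e2 : 4 * (H z.1).a * (z.2 - z'.2) = 0 := by
          have e3 : (H z.1).b + 4 * (H z.1).a * z.2 = (H z.1).b + 4 * (H z.1).a * z'.2 := e1
          linear_combination e3
        have e4 : z.2 = z'.2 := by
          rcases mul_eq_zero.1 e2 with e5 | e5
          · rcases mul_eq_zero.1 e5 with e6 | e6
            · norm_num at e6
            · exact absurd e6 ha
          · exact sub_eq_zero.1 e5
        exact Prod.ext hGG e4
    · intro X hX
      rw [Finset.mem_image] at hX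
      obtain ⟨z, hz, rfl⟩ := hX
      rw [Finset.mem_product, Finset.mem_filter] at hz
      obtain ⟨⟨hz1, hz2⟩, hz3⟩ := hz
      rw [Finset.mem_filter] at hG₀
      have ha : (H z.1).a ≠ 0 := by
        intro h0
        have e1 := congrArg Q4.a (h2 z.1 hz1)
        have e2 : (toF (H z.1)).a = 0 := by
          show algebraMap (𝓞 F) F (H z.1).a = 0
          rw [h0]
          exact map_zero _
        rw [e2] at e1
        have e3 : (z.1.sub (p z.1) (q z.1) (r z.1) (s z.1)).a = 0 := by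
          have e4 : (m : F) * (z.1.sub (p z.1) (q z.1) (r z.1) (s z.1)).a = 0 := e1.symm
          rcases mul_eq_zero.1 e4 with e5 | e5
          · exact absurd e5 hmF
          · exact e5
        exact (hG z.1 hz1).2.1 _ ⟨_, _, _, _, h1 z.1 hz1, rfl⟩ e3
      have hI : ∀ G ∈ S, ((H G).I : F) = (m : F) ^ 2 * ν := by
        intro G hGS
        have e1 : (toF (H G)).I = ((H G).I : F) := by
          simp only [toF, mapQ, Q4.I, map_add, map_sub, map_mul, map_pow, map_ofNat]
        have e2 : (scl (m : F) (G.sub (p G) (q G) (r G) (s G))).I = (m : F) ^ 2 * (G.sub (p G) (q G) (r G) (s G)).I := by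
          simp only [scl, Q4.I]
          ring
        rw [← e1, h2 G hGS, e2, det_sub_I _ (h1 G hGS), (hG G hGS).2.2.2.1]
      refine ⟨?_, ?_, ?_⟩
      · rw [Q4.sub_uni]
        exact ha
      · show ((H z.1).sub 1 z.2 0 1).I = (H G₀).I
        rw [det_sub_I (p := 1) (q := z.2) (r := 0) (s := 1) (H z.1) (by ring)]
        have e1 := hI _ hz1
        have e2 := hI _ hG₀.1
        rw [← e2] at e1
        exact_mod_cast e1
      · have e1 := h3 _ hz1 z.2 (by rw [hz2]; exact (hmem _).1 hz3)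
        rw [hz2] at e1
        exact Box.mono (mul_le_mul_of_nonneg_right hDC hT0.le) e1
  -- the sum over the levels
  have hsum : (S.card : ℝ) = ∑ i ∈ S.image j, ((S.filter fun G => j G = i).card : ℝ) := by
    rw [Finset.card_eq_sum_card_image j S]
    push_cast
    rfl
  rw [hsum]
  calc ∑ i ∈ S.image j, ((S.filter fun G => j G = i).card : ℝ)
      ≤ ∑ i ∈ S.image j, C' * (D ^ n) ^ 3 / c * (T ^ n) ^ 3 * (1 / 4) ^ i :=
        Finset.sum_le_sum fun i _ => hlev i
    _ = C' * (D ^ n) ^ 3 / c * (T ^ n) ^ 3 * ∑ i ∈ S.image j, (1 / 4 : ℝ) ^ i := by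
        rw [Finset.mul_sum]
    _ ≤ C' * (D ^ n) ^ 3 / c * (T ^ n) ^ 3 * (4 / 3) :=
        mul_le_mul_of_nonneg_left (geo _) (by positivity)
    _ = C' * (D ^ n) ^ 3 / c * (4 / 3) * (T ^ n) ^ 3 := by ring

end

end Pool.Agent.L0h45.NF
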