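import Pool.Agent.L0h45.NF.Cls

/-!
# LINE: the sum of `2 ^ rank` on a vertical line over a number field
-/

set_option autoImplicit false
set_option linter.all false

open NumberField Finset
open scoped Classical

namespace Pool.Agent.L0h45.NF

open Pool.Agent.L0h45.AR (Q4)
open Pool.Agent.L0h50.NR (DenQ)

/-- the statement -/
def S_LN : Prop := ∀ (F : Type) [Field F] [NumberField F], ∃ C : ℝ, 0 < C ∧
  ∀ X : ℝ, 1 ≤ X → ∀ A : 𝓞 F, (∀ σ : F →+* ℂ, ‖σ (A : F)‖ ^ 3 ≤ X ^ 2) → ∀ S : Finset (𝓞 F),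
  (∀ B ∈ S, 4 * A ^ 3 + 27 * B ^ 2 ≠ 0 ∧ Bd B X) →
  ∑ B ∈ S, (2 : ℝ) ^ Module.finrank ℤ (Pool.Agent.L0h50.NR.crv (A : F) (B : F)).toAffine.Point ≤
    C * X ^ Module.finrank ℚ F

section

variable {F : Type} [Field F] [NumberField F]

theorem NR_sub_J {R : Type} [CommRing R] (G : Q4 R) (p q r s : R) :
    (G.sub p q r s).J = (p * s - q * r) ^ 6 * G.J := by
  simp only [Q4.J, Q4.sub]
  ring

theorem NR_eqv_J {G H : Q4 F} (h : Pool.Agent.L0h50.NR.Eqv G H) : H.J = G.J := by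
  obtain ⟨p, q, r, s, h1, rfl⟩ := h
  rw [NR_sub_J, h1, one_pow, one_mul]

theorem NR_eqv_refl (G : Q4 F) : Pool.Agent.L0h50.NR.Eqv G G :=
  ⟨1, 0, 0, 1, by ring, G.sub_one.symm⟩

theorem rpow_three {X : ℝ} (hX : 1 ≤ X) : (X ^ (1 / 3 : ℝ)) ^ 3 = X := by
  rw [← Real.rpow_natCast, ← Real.rpow_mul (by linarith)]
  norm_num

theorem place_le (w : InfinitePlace F) (x : 𝓞 F) : ∃ σ : F →+* ℂ, w (x : F) = ‖σ (x : F)‖ :=
  ⟨w.embedding, (InfinitePlace.norm_embedding_eq w _).symm⟩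

theorem place_nat (w : InfinitePlace F) (m : ℕ) : w (m : F) = m := by
  rw [← InfinitePlace.norm_embedding_eq w, map_natCast, Complex.norm_natCast]

theorem place_neg (w : InfinitePlace F) (m : ℕ) : w (-(m : F)) = m := by
  rw [← InfinitePlace.norm_embedding_eq w, map_neg, norm_neg, map_natCast, Complex.norm_natCast]

/-- **LINE** -/
theorem ln (hB : S_BOX) (h0 : Pool.Agent.L0h50.NR.S_COS) (h7 : S_CL) : S_LN := by
  intro F _ _
  obtain ⟨M, hM, hcos⟩ := h0 F
  obtain ⟨C, hC, H⟩ := h7 F M hM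
  set n := Module.finrank ℚ F with hn
  refine ⟨C * (13 ^ n) ^ 3 + 16 * (2 ^ n + 1) * 5, by positivity, ?_⟩
  intro X hX A hA S hS
  have hX0 : 0 < X := by linarith
  obtain ⟨y, hy⟩ : ∃ y, y = X ^ (1 / 3 : ℝ) := ⟨_, rfl⟩
  have hy3 : y ^ 3 = X := by rw [hy]; exact rpow_three hX
  have hy1 : 1 ≤ y := by rw [hy]; exact Real.one_le_rpow hX (by norm_num)
  haveI : Nonempty (Finset (Q4 F)) := ⟨∅⟩
  choose! G hG1 hG2 hG3 using fun (B : 𝓞 F) (hB : B ∈ S) => hcos A B (hS B hB).1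
  have hinv : ∀ q ∈ S, ∀ q' ∈ S, ∀ f ∈ G q, ∀ f' ∈ G q', Pool.Agent.L0h50.NR.Eqv f f' → q = q' := by
    intro q hq q' hq' f hf f' hf' he
    have h2 := NR_eqv_J he
    rw [(hG2 q hq f hf).2.1, (hG2 q' hq' f' hf').2.1] at h2
    have h3 : (q' : F) = (q : F) := by
      have h4 : (-1728 : F) * ((q' : F) - q) = 0 := by linear_combination h2
      rcases mul_eq_zero.1 h4 with h5 | h5
      · norm_num at h5
      · exact sub_eq_zero.1 h5
    exact (RingOfIntegers.coe_injective h3).symm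
  have hdisj : ∀ q ∈ S, ∀ q' ∈ S, q ≠ q' → Disjoint (G q) (G q') := by
    intro q hq q' hq' hne
    rw [disjoint_left]
    intro f hf hf'
    exact hne (hinv q hq q' hq' f hf f hf' (NR_eqv_refl f))
  have hall := H (13 * y) (-48 * (A : F)) (S.biUnion G) (by linarith) (by
    intro f hf
    rw [mem_biUnion] at hf
    obtain ⟨q, hq, hf⟩ := hf
    obtain ⟨hI, hJ, hno, hden⟩ := hG2 q hq f hf
    obtain ⟨hD, h3⟩ := hS q hq
    refine ⟨?_, hno, hden, hI, ?_⟩
    · by_contra hcon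
      push Not at hcon
      rw [hI, hJ] at hcon
      obtain ⟨e1, e2⟩ := hcon
      have e3 : (A : F) = 0 := by
        rcases mul_eq_zero.1 e1 with h5 | h5
        · norm_num at h5
        · exact h5
      have e4 : (q : F) = 0 := by
        rcases mul_eq_zero.1 e2 with h5 | h5
        · norm_num at h5
        · exact h5
      have e5 : A = 0 := RingOfIntegers.coe_injective (e3.trans (map_zero (algebraMap (𝓞 F) F)).symm)
      have e6 : q = 0 := RingOfIntegers.coe_injective (e4.trans (map_zero (algebraMap (𝓞 F) F)).symm)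
      apply hD
      rw [e5, e6]
      ring
    · intro w
      rw [hI, hJ]
      have e1 : w (-48 * (A : F)) = 48 * w (A : F) := by
        rw [map_mul]
        congr 1
        have := place_neg w 48
        push_cast at this
        exact this
      have e2 : w (-1728 * (q : F)) = 1728 * w (q : F) := by
        rw [map_mul]
        congr 1
        have := place_neg w 1728
        push_cast at this
        exact this
      rw [e1, e2]
      have e3 : w (A : F) ^ 3 ≤ X ^ 2 := by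
        obtain ⟨σ, hσ⟩ := place_le w A
        rw [hσ]
        exact hA σ
      have e4 : w (q : F) ^ 2 ≤ X ^ 2 := by
        obtain ⟨σ, hσ⟩ := place_le w q
        rw [hσ]
        exact pow_le_pow_left₀ (norm_nonneg _) (h3 σ) 2
      calc (48 * w (A : F)) ^ 3 + (1728 * w (q : F)) ^ 2 =
            110592 * w (A : F) ^ 3 + 2985984 * w (q : F) ^ 2 := by ring
        _ ≤ 110592 * X ^ 2 + 2985984 * X ^ 2 := by gcongr
        _ ≤ 13 ^ 6 * X ^ 2 := by nlinarith [sq_nonneg X]
        _ = (13 * y) ^ 6 := by rw [← hy3]; ring)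
    (by
      intro f hf f' hf' hne he
      rw [mem_biUnion] at hf hf'
      obtain ⟨q, hq, hf⟩ := hf
      obtain ⟨q', hq', hf'⟩ := hf'
      have h1 := hinv q hq q' hq' f hf f' hf' he
      subst h1
      exact hG3 q hq f hf f' hf' hne he)
  rw [card_biUnion hdisj] at hall
  push_cast at hall
  have h1 : ∑ q ∈ S, (2 : ℝ) ^ Module.finrank ℤ (Pool.Agent.L0h50.NR.crv (A : F) (q : F)).toAffine.Point ≤
      ∑ q ∈ S, (((G q).card : ℝ) + 5) := by
    apply sum_le_sum
    intro q hq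
    exact_mod_cast hG1 q hq
  rw [sum_add_distrib, sum_const, nsmul_eq_mul] at h1
  have hXn : 1 ≤ X ^ n := one_le_pow₀ hX
  have h2 : (S.card : ℝ) ≤ 16 * (2 ^ n + 1) * X ^ n := by
    have h3 := hB F ⊤ (by simp) (fun _ => 2 * X) (fun _ => by linarith) S (by
      intro x hx x' hx'
      refine ⟨Submodule.mem_top, ?_⟩
      have h4 := (hS x hx).2.sub (hS x' hx').2
      intro σ
      refine (h4 σ).trans (by linarith))
    rw [Finset.prod_const, Finset.card_univ, card_emb] at h3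
    have h5 : NI (⊤ : Ideal (𝓞 F)) = 1 := by
      unfold NI
      rw [Ideal.absNorm_top]
      norm_num
    rw [h5, div_one, mul_pow, ← hn] at h3
    nlinarith
  have h6 : (((13 * y) ^ n) ^ 3 : ℝ) = (13 ^ n) ^ 3 * X ^ n := by
    rw [← hy3]
    ring
  rw [h6] at hall
  calc _ ≤ _ := h1
    _ ≤ C * ((13 ^ n) ^ 3 * X ^ n) + (16 * (2 ^ n + 1) * X ^ n) * 5 := by gcongr
    _ = (C * (13 ^ n) ^ 3 + 16 * (2 ^ n + 1) * 5) * X ^ n := by ring

end

end Pool.Agent.L0h45.NF
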