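import Pool.Agent.L0h45.NF.Line
import Pool.Agent.L0h57.NF.Box
import Pool.Agent.L0h71.NF.BOXI
import Pool.Agent.L0h71.NF.SUMN
import Pool.Agent.L0h71.NF.GCD
import Pool.Agent.L0h9.NF.CSQ
import Pool.Agent.L0h9.NF.ZETA
import Pool.Agent.L0h50.NR.Red
import Pool.Agent.L0h50.NR.Sum
import Pool.Agent.L0h17.NR.RED1
import Pool.Agent.L0h17.NR.APX
import Pool.Agent.L0h19.NR.Alg
import Pool.Agent.L0h48.NR.DEN
import Pool.Agent.L0h83.NR.D1E
import Pool.Agent.L0h83.NR.D1C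
import Pool.Agent.L0h90.NR.Eqv
import Pool.Agent.L0h90.NR.Half
import Pool.Agent.L0h90.NR.Pair
import Pool.Agent.L0h95.NR.COS

/-!
# Assembly of project NF: the sum of `2 ^ rank` on the vertical lines over a number field
-/

set_option autoImplicit false
set_option linter.all false

namespace Pool.Agent.L0h45.NF

theorem boxi : S_BOXI :=
  Pool.Agent.L0h71.NF.boxi Pool.Agent.L0h57.NF.box (Pool.Agent.L0h9.NF.csq Pool.Agent.L0h57.NF.box)
    (Pool.Agent.L0h9.NF.de Pool.Agent.L0h57.NF.box)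
    (Pool.Agent.L0h71.NF.gcd (Pool.Agent.L0h71.NF.sumn Pool.Agent.L0h57.NF.box) Pool.Agent.L0h9.NF.zeta)

/-- the sum over the curves on a vertical line over a number field -/
theorem line : S_LN :=
  ln Pool.Agent.L0h57.NF.box
    (Pool.Agent.L0h95.NR.cos (Pool.Agent.L0h50.NR.fp Pool.Agent.L0h48.NR.den Pool.Agent.L0h19.NR.alg)
      Pool.Agent.L0h90.NR.eqv Pool.Agent.L0h90.NR.half Pool.Agent.L0h90.NR.pair)
    (cl (st (Pool.Agent.L0h83.NR.d1e Pool.Agent.L0h83.NR.d1c)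
        (Pool.Agent.L0h50.NR.red Pool.Agent.L0h17.NR.red1 Pool.Agent.L0h17.NR.apx Pool.Agent.L0h17.NR.cov))
      boxi Pool.Agent.L0h9.NF.uni)

end Pool.Agent.L0h45.NF
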