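import Pool.Agent.L0h45.NF.Main
import Pool.Agent.L0h50.NR.Stm2

/-!
# Vertical lines over a number field, ranks over a multiquadratic extension
-/

set_option autoImplicit false
set_option linter.all false

open NumberField Finset
open scoped Classical

namespace Pool.Agent.L0h45.NF

/-- the statement -/
def S_LK : Prop := ∀ (F K : Type) [Field F] [NumberField F] [Field K] [NumberField K] [Algebra F K]
  [IsGalois F K], (∀ σ : K ≃ₐ[F] K, σ * σ = 1) → ∃ C : ℝ, 0 < C ∧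
  ∀ X : ℝ, 1 ≤ X → ∀ A : 𝓞 F, (∀ σ : F →+* ℂ, ‖σ (A : F)‖ ^ 3 ≤ X ^ 2) → ∀ S : Finset (𝓞 F),
  (∀ B ∈ S, 4 * A ^ 3 + 27 * B ^ 2 ≠ 0 ∧ Bd B X) →
  ∑ B ∈ S, (2 : ℝ) ^ ((Module.finrank ℤ (Pool.Agent.L0h50.NR.crv (algebraMap F K (A : F))
    (algebraMap F K (B : F))).toAffine.Point : ℝ) / Module.finrank F K) ≤ C * X ^ Module.finrank ℚ F

/-- an integer is bounded at all places -/
theorem exists_bd {F : Type} [Field F] [NumberField F] (d : 𝓞 F) : ∃ D : ℝ, 1 ≤ D ∧ Bd d D := by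
  refine ⟨1 + ∑ σ : F →+* ℂ, ‖σ (d : F)‖, ?_, fun σ => ?_⟩
  · have : 0 ≤ ∑ σ : F →+* ℂ, ‖σ (d : F)‖ := Finset.sum_nonneg fun σ _ => norm_nonneg _
    linarith
  · have := Finset.single_le_sum (f := fun σ : F →+* ℂ => ‖σ (d : F)‖) (fun σ _ => norm_nonneg _)
      (Finset.mem_univ σ)
    have h1 : ‖σ (d : F)‖ ≤ ∑ σ : F →+* ℂ, ‖σ (d : F)‖ := this
    linarith

/-- the inequality of the means -/
theorem am_gm {m : ℕ} (hm : 0 < m) (r : Fin m → ℕ) (R : ℕ) (h : R ≤ ∑ i, r i) :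
    (2 : ℝ) ^ ((R : ℝ) / m) ≤ ∑ i, (2 : ℝ) ^ r i := by
  have hm0 : (0 : ℝ) < m := by exact_mod_cast hm
  have h1 := Real.geom_mean_le_arith_mean_weighted (Finset.univ) (fun _ : Fin m => (1 / m : ℝ))
    (fun i => (2 : ℝ) ^ r i) (fun i _ => by positivity)
    (by rw [Finset.sum_const, Finset.card_univ, Fintype.card_fin, nsmul_eq_mul]; field_simp)
    (fun i _ => by positivity)
  have h2 : ∏ i : Fin m, ((2 : ℝ) ^ r i) ^ (1 / m : ℝ) = 2 ^ ((∑ i, r i : ℕ) / m : ℝ) := by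
    have h3 : ∀ i : Fin m, ((2 : ℝ) ^ r i) ^ (1 / m : ℝ) = 2 ^ ((r i : ℝ) * (1 / m)) := by
      intro i
      rw [← Real.rpow_natCast, ← Real.rpow_mul (by norm_num)]
    rw [Finset.prod_congr rfl fun i _ => h3 i, ← Real.rpow_sum_of_pos (by norm_num)]
    congr 1
    push_cast
    rw [Finset.sum_div]
    refine Finset.sum_congr rfl fun i _ => ?_
    ring
  calc (2 : ℝ) ^ ((R : ℝ) / m) ≤ 2 ^ ((∑ i, r i : ℕ) / m : ℝ) := by
        apply Real.rpow_le_rpow_of_exponent_le (by norm_num)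
        apply div_le_div_of_nonneg_right _ hm0.le
        exact_mod_cast h
    _ = _ := h2.symm
    _ ≤ _ := h1
    _ ≤ ∑ i, (2 : ℝ) ^ r i := by
        apply Finset.sum_le_sum
        intro i _
        have h3 : (1 / m : ℝ) ≤ 1 := by
          rw [div_le_one hm0]
          exact_mod_cast hm
        have h4 : (0 : ℝ) ≤ 2 ^ r i := by positivity
        nlinarith

/-- **the vertical lines, ranks over multiquadratic extensions** -/
theorem lk (h : S_LN) (hR : Pool.Agent.L0h50.NR.S_RKQ) : S_LK := by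
  intro F K _ _ _ _ _ _ hK
  obtain ⟨C, hC, H⟩ := h F
  obtain ⟨d, hd, hrk⟩ := hR F K hK
  have hm0 : 0 < Module.finrank F K := Module.finrank_pos
  generalize Module.finrank F K = m at d hd hrk hm0 ⊢
  choose D hD1 hD using fun i => exists_bd (d i)
  obtain ⟨n, hn⟩ : ∃ n, n = Module.finrank ℚ F := ⟨_, rfl⟩
  rw [← hn] at H ⊢
  have hC' : 0 ≤ ∑ i : Fin m, C * (D i ^ 3) ^ n := by
    apply Finset.sum_nonneg
    intro i _
    have : 0 < D i := by linarith [hD1 i]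
    positivity
  refine ⟨(∑ i : Fin m, C * (D i ^ 3) ^ n) + 1, by linarith, ?_⟩
  intro X hX A hA S hS
  have hX0 : 0 < X := by linarith
  have h1 : ∀ B ∈ S, (2 : ℝ) ^ ((Module.finrank ℤ (Pool.Agent.L0h50.NR.crv (algebraMap F K (A : F))
      (algebraMap F K (B : F))).toAffine.Point : ℝ) / m) ≤
      ∑ i : Fin m, (2 : ℝ) ^ Module.finrank ℤ (Pool.Agent.L0h50.NR.crv ((d i ^ 2 * A : 𝓞 F) : F)
        ((d i ^ 3 * B : 𝓞 F) : F)).toAffine.Point := by
    intro B hB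
    have hΔ : 4 * (A : F) ^ 3 + 27 * (B : F) ^ 2 ≠ 0 := by
      intro h0
      apply (hS B hB).1
      apply RingOfIntegers.coe_injective
      have e1 : ((4 * A ^ 3 + 27 * B ^ 2 : 𝓞 F) : F) = 4 * (A : F) ^ 3 + 27 * (B : F) ^ 2 := by
        simp only [map_add, map_mul, map_pow, map_ofNat]
      have e2 : ((4 * A ^ 3 + 27 * B ^ 2 : 𝓞 F) : F) = algebraMap (𝓞 F) F 0 := by
        rw [e1, h0, map_zero]
      exact e2
    have h2 := hrk A B hΔ
    refine am_gm hm0 _ _ (h2.trans (le_of_eq ?_))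
    refine Finset.sum_congr rfl fun i _ => ?_
    have e1 : ((d i ^ 2 * A : 𝓞 F) : F) = (d i : F) ^ 2 * (A : F) := by simp only [map_mul, map_pow]
    have e2 : ((d i ^ 3 * B : 𝓞 F) : F) = (d i : F) ^ 3 * (B : F) := by simp only [map_mul, map_pow]
    rw [e1, e2]
  have h3 : ∀ i : Fin m, ∑ B ∈ S, (2 : ℝ) ^ Module.finrank ℤ (Pool.Agent.L0h50.NR.crv ((d i ^ 2 * A : 𝓞 F) : F)
        ((d i ^ 3 * B : 𝓞 F) : F)).toAffine.Point ≤ C * (D i ^ 3) ^ n * X ^ n := by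
    intro i
    have hDi := hD1 i
    have hdi := hd i
    have hD3 : 1 ≤ D i ^ 3 := one_le_pow₀ hDi
    have hD0 : 0 < D i := by linarith
    have h4 := H (D i ^ 3 * X) (by nlinarith) (d i ^ 2 * A) ?_
      (S.image fun B => d i ^ 3 * B) ?_
    · rw [Finset.sum_image] at h4
      · refine h4.trans (le_of_eq ?_)
        rw [mul_pow]
        ring
      · intro B _ B' _ hBB
        exact mul_left_cancel₀ (pow_ne_zero 3 hdi) hBB
    · intro σ
      have h5 : σ ((d i ^ 2 * A : 𝓞 F) : F) = σ (d i : F) ^ 2 * σ (A : F) := by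
        simp only [map_mul, map_pow]
      rw [h5, norm_mul, norm_pow, mul_pow]
      calc (‖σ (d i : F)‖ ^ 2) ^ 3 * ‖σ (A : F)‖ ^ 3 ≤ (D i ^ 2) ^ 3 * X ^ 2 := by
            gcongr
            · exact hD i σ
            · exact hA σ
        _ = (D i ^ 3 * X) ^ 2 := by ring
    · intro B' hB'
      rw [Finset.mem_image] at hB'
      obtain ⟨B, hB, rfl⟩ := hB'
      obtain ⟨e1, e2⟩ := hS B hB
      refine ⟨?_, ?_⟩
      · intro h0
        have h6 : d i ^ 6 * (4 * A ^ 3 + 27 * B ^ 2) = 0 := by linear_combination h0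
        rcases mul_eq_zero.1 h6 with h7 | h7
        · exact hdi (pow_eq_zero_iff (by norm_num : (6 : ℕ) ≠ 0) |>.1 h7)
        · exact e1 h7
      · intro σ
        have h5 : σ ((d i ^ 3 * B : 𝓞 F) : F) = σ (d i : F) ^ 3 * σ (B : F) := by
          simp only [map_mul, map_pow]
        rw [h5, norm_mul, norm_pow]
        exact mul_le_mul (pow_le_pow_left₀ (norm_nonneg _) (hD i σ) 3) (e2 σ) (norm_nonneg _) (by positivity)
  calc _ ≤ ∑ B ∈ S, ∑ i : Fin m, (2 : ℝ) ^ Module.finrank ℤ (Pool.Agent.L0h50.NR.crv ((d i ^ 2 * A : 𝓞 F) : F)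
        ((d i ^ 3 * B : 𝓞 F) : F)).toAffine.Point := Finset.sum_le_sum h1
    _ = ∑ i : Fin m, ∑ B ∈ S, (2 : ℝ) ^ Module.finrank ℤ (Pool.Agent.L0h50.NR.crv ((d i ^ 2 * A : 𝓞 F) : F)
        ((d i ^ 3 * B : 𝓞 F) : F)).toAffine.Point := Finset.sum_comm
    _ ≤ ∑ i : Fin m, C * (D i ^ 3) ^ n * X ^ n := Finset.sum_le_sum fun i _ => h3 i
    _ = (∑ i : Fin m, C * (D i ^ 3) ^ n) * X ^ n := by rw [Finset.sum_mul]
    _ ≤ ((∑ i : Fin m, C * (D i ^ 3) ^ n) + 1) * X ^ n := by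
        apply mul_le_mul_of_nonneg_right _ (by positivity)
        linarith

end Pool.Agent.L0h45.NF
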