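import Pool.Agent.L0h45.NF.Bas
import Pool.Agent.L0h45.AR.D3
import Pool.Agent.L0h50.NR.Stm

/-!
# STEP: every form with bounded denominators is equivalent to one all of whose translates lie in a box
-/

set_option autoImplicit false
set_option linter.all false

open NumberField
open scoped Classical

namespace Pool.Agent.L0h45.NF

open Pool.Agent.L0h45.AR (Q4)
open Pool.Agent.L0h50.NR (E ι mp Den DenQ)

/-- the statement -/
def S_ST : Prop := ∀ (F : Type) [Field F] [NumberField F] (M : ℕ), 0 < M → ∃ (C : ℝ) (m : ℕ), 0 < C ∧ 0 < m ∧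
  ∀ (T : ℝ) (G : Q4 F), 0 < T → (G.I ≠ 0 ∨ G.J ≠ 0) → DenQ M G →
  (∀ w : InfinitePlace F, w G.I ^ 3 + w G.J ^ 2 ≤ T ^ 6) →
  ∃ (j : ℕ) (p q r s : F) (H : Q4 (𝓞 F)), p * s - q * r = 1 ∧
    toF H = ⟨m * (G.sub p q r s).a, m * (G.sub p q r s).b, m * (G.sub p q r s).c, m * (G.sub p q r s).d,
      m * (G.sub p q r s).e⟩ ∧
    ∀ k : 𝓞 F, Bd k (4 ^ j) → Box (C * T) j (H.sub 1 k 0 1)

/-! ### Bounds in a normed ring -/

section nrm

variable {R : Type} [NormedCommRing R]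

theorem nadd {x y : R} {X Y : ℝ} (h : ‖x‖ ≤ X) (h' : ‖y‖ ≤ Y) : ‖x + y‖ ≤ X + Y :=
  (norm_add_le _ _).trans (add_le_add h h')

theorem nmul {x y : R} {X Y : ℝ} (h : ‖x‖ ≤ X) (h' : ‖y‖ ≤ Y) : ‖x * y‖ ≤ X * Y :=
  (norm_mul_le _ _).trans (mul_le_mul h h' (norm_nonneg _) ((norm_nonneg _).trans h))

theorem npow {x : R} {X : ℝ} (h : ‖x‖ ≤ X) (n : ℕ) : ‖x ^ (n + 1)‖ ≤ X ^ (n + 1) := by
  induction n with
  | zero => simpa using h
  | succ n ih =>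
    rw [pow_succ, pow_succ X]
    exact nmul ih h

theorem nnat {x : R} {X : ℝ} (h : ‖x‖ ≤ X) (n : ℕ) : ‖(n : R) * x‖ ≤ n * X := by
  rw [← nsmul_eq_mul]
  exact (norm_nsmul_le).trans (mul_le_mul_of_nonneg_left h (Nat.cast_nonneg _))

variable {G : Q4 R} {N l m : ℝ} {p q r s : R}

theorem nb_a (ga : ‖G.a‖ ≤ N) (gb : ‖G.b‖ ≤ N) (gc : ‖G.c‖ ≤ N) (gd : ‖G.d‖ ≤ N) (ge : ‖G.e‖ ≤ N)
    (hp : ‖p‖ ≤ l) (hq : ‖q‖ ≤ m) (hr : ‖r‖ ≤ l) (hs : ‖s‖ ≤ m) :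
    ‖(G.sub p q r s).a‖ ≤ 5 * (N * l ^ 4) := by
  have h := nadd (nadd (nadd (nadd (nmul ga (npow hp 3)) (nmul (nmul gb (npow hp 2)) hr))
    (nmul (nmul gc (npow hp 1)) (npow hr 1))) (nmul (nmul gd hp) (npow hr 2))) (nmul ge (npow hr 3))
  refine le_trans (le_of_eq ?_) (h.trans (le_of_eq ?_))
  · congr 1
  · ring

theorem nb_b (ga : ‖G.a‖ ≤ N) (gb : ‖G.b‖ ≤ N) (gc : ‖G.c‖ ≤ N) (gd : ‖G.d‖ ≤ N) (ge : ‖G.e‖ ≤ N)
    (hp : ‖p‖ ≤ l) (hq : ‖q‖ ≤ m) (hr : ‖r‖ ≤ l) (hs : ‖s‖ ≤ m) :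
    ‖(G.sub p q r s).b‖ ≤ 20 * (N * l ^ 3 * m) := by
  have h1 := nnat (nmul (nmul ga (npow hp 2)) hq) 4
  have h2 := nmul gb (nadd (nmul (npow hp 2) hs) (nnat (nmul (nmul (npow hp 1) hq) hr) 3))
  have h3 := nmul gc (nadd (nnat (nmul (nmul hp hq) (npow hr 1)) 2) (nnat (nmul (nmul (npow hp 1) hr) hs) 2))
  have h4 := nmul gd (nadd (nmul hq (npow hr 2)) (nnat (nmul (nmul hp (npow hr 1)) hs) 3))
  have h5 := nnat (nmul (nmul ge (npow hr 2)) hs) 4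
  have h := nadd (nadd (nadd (nadd h1 h2) h3) h4) h5
  refine le_trans (le_of_eq ?_) (h.trans (le_of_eq ?_))
  · congr 1
    simp only [Q4.sub]
    push_cast
    ring
  · push_cast
    ring

theorem nb_c (ga : ‖G.a‖ ≤ N) (gb : ‖G.b‖ ≤ N) (gc : ‖G.c‖ ≤ N) (gd : ‖G.d‖ ≤ N) (ge : ‖G.e‖ ≤ N)
    (hp : ‖p‖ ≤ l) (hq : ‖q‖ ≤ m) (hr : ‖r‖ ≤ l) (hs : ‖s‖ ≤ m) :
    ‖(G.sub p q r s).c‖ ≤ 30 * (N * l ^ 2 * m ^ 2) := by
  have h1 := nnat (nmul (nmul ga (npow hp 1)) (npow hq 1)) 6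
  have h2 := nmul gb (nadd (nnat (nmul (nmul (npow hp 1) hq) hs) 3) (nnat (nmul (nmul hp (npow hq 1)) hr) 3))
  have h3 := nmul gc (nadd (nadd (nmul (npow hp 1) (npow hs 1)) (nnat (nmul (nmul (nmul hp hq) hr) hs) 4))
    (nmul (npow hq 1) (npow hr 1)))
  have h4 := nmul gd (nadd (nnat (nmul (nmul hp hr) (npow hs 1)) 3) (nnat (nmul (nmul hq (npow hr 1)) hs) 3))
  have h5 := nnat (nmul (nmul ge (npow hr 1)) (npow hs 1)) 6
  have h := nadd (nadd (nadd (nadd h1 h2) h3) h4) h5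
  refine le_trans (le_of_eq ?_) (h.trans (le_of_eq ?_))
  · congr 1
    simp only [Q4.sub]
    push_cast
    ring
  · push_cast
    ring

theorem nb_d (ga : ‖G.a‖ ≤ N) (gb : ‖G.b‖ ≤ N) (gc : ‖G.c‖ ≤ N) (gd : ‖G.d‖ ≤ N) (ge : ‖G.e‖ ≤ N)
    (hp : ‖p‖ ≤ l) (hq : ‖q‖ ≤ m) (hr : ‖r‖ ≤ l) (hs : ‖s‖ ≤ m) :
    ‖(G.sub p q r s).d‖ ≤ 20 * (N * l * m ^ 3) := by
  have h1 := nnat (nmul (nmul ga hp) (npow hq 2)) 4
  have h2 := nmul gb (nadd (nmul (npow hq 2) hr) (nnat (nmul (nmul hp (npow hq 1)) hs) 3))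
  have h3 := nmul gc (nadd (nnat (nmul (nmul hp hq) (npow hs 1)) 2) (nnat (nmul (nmul (npow hq 1) hr) hs) 2))
  have h4 := nmul gd (nadd (nmul hp (npow hs 2)) (nnat (nmul (nmul hq hr) (npow hs 1)) 3))
  have h5 := nnat (nmul (nmul ge hr) (npow hs 2)) 4
  have h := nadd (nadd (nadd (nadd h1 h2) h3) h4) h5
  refine le_trans (le_of_eq ?_) (h.trans (le_of_eq ?_))
  · congr 1
    simp only [Q4.sub]
    push_cast
    ring
  · push_cast
    ring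

theorem nb_e (ga : ‖G.a‖ ≤ N) (gb : ‖G.b‖ ≤ N) (gc : ‖G.c‖ ≤ N) (gd : ‖G.d‖ ≤ N) (ge : ‖G.e‖ ≤ N)
    (hp : ‖p‖ ≤ l) (hq : ‖q‖ ≤ m) (hr : ‖r‖ ≤ l) (hs : ‖s‖ ≤ m) :
    ‖(G.sub p q r s).e‖ ≤ 5 * (N * m ^ 4) := by
  have h := nadd (nadd (nadd (nadd (nmul ga (npow hq 3)) (nmul (nmul gb (npow hq 2)) hs))
    (nmul (nmul gc (npow hq 1)) (npow hs 1))) (nmul (nmul gd hq) (npow hs 2))) (nmul ge (npow hs 3))
  refine le_trans (le_of_eq ?_) (h.trans (le_of_eq ?_))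
  · congr 1
  · ring

end nrm

section nf

variable {F : Type} [Field F] [NumberField F]

/-- the norm in the mixed space bounds the conjugates -/
theorem bd_of_norm (x : 𝓞 F) {R : ℝ} (h : ‖ι F (x : F)‖ ≤ R) : Bd x R := by
  intro σ
  refine le_trans ?_ h
  have h1 : ‖σ (x : F)‖ = InfinitePlace.mk σ (x : F) := (InfinitePlace.apply σ (x : F)).symm
  rw [h1, mixedEmbedding.norm_eq_sup'_normAtPlace]
  have h2 := Finset.le_sup' (fun w => mixedEmbedding.normAtPlace w (ι F (x : F)))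
    (Finset.mem_univ (InfinitePlace.mk σ))
  refine le_trans (le_of_eq ?_) h2
  rw [mixedEmbedding.normAtPlace_apply]

theorem norm_of_bd (x : 𝓞 F) {R : ℝ} (h : Bd x R) : ‖ι F (x : F)‖ ≤ R := by
  rw [mixedEmbedding.norm_eq_sup'_normAtPlace]
  apply Finset.sup'_le
  intro w _
  rw [mixedEmbedding.normAtPlace_apply]
  have h1 := h w.embedding
  rwa [InfinitePlace.norm_embedding_eq] at h1

theorem mp_sub {R S : Type} [CommRing R] [CommRing S] (φ : R →+* S) (G : Q4 R) (p q r s : R) :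
    mp φ (G.sub p q r s) = (mp φ G).sub (φ p) (φ q) (φ r) (φ s) := by
  simp only [mp, Q4.sub, map_add, map_mul, map_pow, map_ofNat]

/-- the multiple of a form -/
def scl {R : Type} [CommRing R] (c : R) (G : Q4 R) : Q4 R := ⟨c * G.a, c * G.b, c * G.c, c * G.d, c * G.e⟩

theorem scl_sub {R : Type} [CommRing R] (c : R) (G : Q4 R) (p q r s : R) :
    (scl c G).sub p q r s = scl c (G.sub p q r s) := by
  ext <;> simp only [scl, Q4.sub] <;> ring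

theorem sub_scl {R : Type} [CommRing R] (n : R) (G : Q4 R) (p q r s : R) :
    G.sub (n * p) (n * q) (n * r) (n * s) = scl (n ^ 4) (G.sub p q r s) := by
  ext <;> simp only [scl, Q4.sub] <;> ring

theorem scl_scl {R : Type} [CommRing R] (c d : R) (G : Q4 R) : scl c (scl d G) = scl (c * d) G := by
  ext <;> simp only [scl] <;> ring

theorem toF_sub' (G : Q4 (𝓞 F)) (p q r s : 𝓞 F) : toF (G.sub p q r s) =
    (toF G).sub (p : F) (q : F) (r : F) (s : F) := by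
  simp only [toF, mapQ, Q4.sub, map_add, map_mul, map_pow, map_ofNat]

/-- the bounds of the coefficients -/
theorem bnds (K K₂ T : ℝ) (hK : 0 < K) (hK₂ : 0 < K₂) (hT : 0 < T) (m : ℕ) (j : ℕ) (G H : Q4 F)
    (H' : Q4 (𝓞 F)) (hH : toF H' = scl (m : F) H) (P Q R S : E F)
    (ha : ‖((mp (ι F) G).sub P Q R S).a‖ ≤ K * T) (hb : ‖((mp (ι F) G).sub P Q R S).b‖ ≤ K * T)
    (hc : ‖((mp (ι F) G).sub P Q R S).c‖ ≤ K * T) (hd : ‖((mp (ι F) G).sub P Q R S).d‖ ≤ K * T)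
    (he : ‖((mp (ι F) G).sub P Q R S).e‖ ≤ K * T) (u₁ u₂ v₁ v₂ : E F)
    (h1 : ‖u₁‖ ≤ K₂ / 2 ^ j) (h2 : ‖u₂‖ ≤ K₂ / 2 ^ j) (h3 : ‖v₁‖ ≤ K₂ * 2 ^ j) (h4 : ‖v₂‖ ≤ K₂ * 2 ^ j)
    (hs : mp (ι F) H = ((mp (ι F) G).sub P Q R S).sub u₁ v₁ u₂ v₂) :
    Box (30 * K * K₂ ^ 4 * m * T) j H' := by
  have h2j : (0 : ℝ) < 2 ^ j := by positivity
  have e4 : (4 : ℝ) ^ j = 2 ^ j * 2 ^ j := by
    rw [← mul_pow]; norm_num
  have e16 : (16 : ℝ) ^ j = (2 ^ j * 2 ^ j) * (2 ^ j * 2 ^ j) := by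
    rw [← mul_pow, ← mul_pow]; norm_num
  have hm0 : (0 : ℝ) ≤ m := Nat.cast_nonneg _
  have key : ∀ (x : 𝓞 F) (y : F) (B B' : ℝ), (x : F) = (m : F) * y → ‖ι F y‖ ≤ B → (m : ℝ) * B ≤ B' → Bd x B' := by
    intro x y B B' hx hy hB
    apply bd_of_norm
    rw [hx, map_mul, map_natCast]
    exact (nnat hy m).trans hB
  have a1 := nb_a ha hb hc hd he h1 h3 h2 h4
  have b1 := nb_b ha hb hc hd he h1 h3 h2 h4
  have c1 := nb_c ha hb hc hd he h1 h3 h2 h4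
  have d1 := nb_d ha hb hc hd he h1 h3 h2 h4
  have e1 := nb_e ha hb hc hd he h1 h3 h2 h4
  rw [← hs] at a1 b1 c1 d1 e1
  have hKT : 0 ≤ K * T * K₂ ^ 4 * m := by positivity
  refine ⟨?_, ?_, ?_, ?_, ?_⟩
  · refine key H'.a H.a _ _ (congrArg Q4.a hH) a1 ?_
    have e : (m : ℝ) * (5 * (K * T * (K₂ / 2 ^ j) ^ 4)) = 5 * (K * T * K₂ ^ 4 * m) / 16 ^ j := by
      rw [e16]; field_simp
    rw [e]
    apply div_le_div_of_nonneg_right _ (by positivity)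
    nlinarith
  · refine key H'.b H.b _ _ (congrArg Q4.b hH) b1 ?_
    have e : (m : ℝ) * (20 * (K * T * (K₂ / 2 ^ j) ^ 3 * (K₂ * 2 ^ j))) = 20 * (K * T * K₂ ^ 4 * m) / 4 ^ j := by
      rw [e4]; field_simp
    rw [e]
    apply div_le_div_of_nonneg_right _ (by positivity)
    nlinarith
  · refine key H'.c H.c _ _ (congrArg Q4.c hH) c1 ?_
    have e : (m : ℝ) * (30 * (K * T * (K₂ / 2 ^ j) ^ 2 * (K₂ * 2 ^ j) ^ 2)) = 30 * (K * T * K₂ ^ 4 * m) := by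
      field_simp
    rw [e]
    nlinarith
  · refine key H'.d H.d _ _ (congrArg Q4.d hH) d1 ?_
    have e : (m : ℝ) * (20 * (K * T * (K₂ / 2 ^ j) * (K₂ * 2 ^ j) ^ 3)) = 20 * (K * T * K₂ ^ 4 * m) * 4 ^ j := by
      rw [e4]; field_simp
    rw [e]
    apply mul_le_mul_of_nonneg_right _ (by positivity)
    nlinarith
  · refine key H'.e H.e _ _ (congrArg Q4.e hH) e1 ?_
    have e : (m : ℝ) * (5 * (K * T * (K₂ * 2 ^ j) ^ 4)) = 5 * (K * T * K₂ ^ 4 * m) * 16 ^ j := by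
      rw [e16]; ring
    rw [e]
    apply mul_le_mul_of_nonneg_right _ (by positivity)
    nlinarith

/-- **STEP** -/
theorem st (hD : Pool.Agent.L0h50.NR.S_D1E) (hR : Pool.Agent.L0h50.NR.S_RED) : S_ST := by
  intro F _ _ M hM
  obtain ⟨K, hK, hD⟩ := hD F
  obtain ⟨K', n, hK', hn, hR⟩ := hR F
  refine ⟨30 * K * (K' + 2) ^ 4 * ((M * n ^ 4 : ℕ) : ℝ), M * n ^ 4, by positivity, by positivity, ?_⟩
  intro T G hT hIJ hG hw
  obtain ⟨p, q, r, s, hdet, ba, bb, bc, bd, be⟩ := hD T G hT hIJ hw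
  obtain ⟨p', q', r', s', l, hdet', ⟨dp, hdp⟩, ⟨dq, hdq⟩, ⟨dr, hdr⟩, ⟨ds, hds⟩, hl0, hlK, e1, e2, e3, e4⟩ :=
    hR s (-q) (-r) p (by linear_combination hdet)
  obtain ⟨⟨Ga, hGa⟩, ⟨Gb, hGb⟩, ⟨Gc, hGc⟩, ⟨Gd, hGd⟩, ⟨Ge, hGe⟩⟩ := hG
  obtain ⟨j, hj1, hj2⟩ := exists_nat_pow_near (x := K' / l) (y := (2 : ℝ))
    (by rw [le_div_iff₀ hl0]; linarith) (by norm_num)
  have h2j : (0 : ℝ) < 2 ^ j := by positivity
  have hl : l ≤ K' / 2 ^ j := by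
    rw [le_div_iff₀ hl0] at hj1
    rw [le_div_iff₀ h2j]
    linarith
  obtain ⟨Gh, hGh⟩ : ∃ Gh : Q4 (𝓞 F), Gh = ⟨Ga, Gb, Gc, Gd, Ge⟩ := ⟨_, rfl⟩
  have hGhF : toF Gh = scl (M : F) G := by
    rw [hGh]
    ext
    · exact hGa
    · exact hGb
    · exact hGc
    · exact hGd
    · exact hGe
  obtain ⟨H, hH⟩ : ∃ H : Q4 (𝓞 F), H = Gh.sub dp dq dr ds := ⟨_, rfl⟩
  have hHF : toF H = scl ((M * n ^ 4 : ℕ) : F) (G.sub p' q' r' s') := by
    rw [hH, toF_sub', hGhF, hdp, hdq, hdr, hds, sub_scl, scl_sub, scl_scl]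
    push_cast
    rw [mul_comm]
  refine ⟨j, p', q', r', s', H, hdet', ?_, ?_⟩
  · rw [hHF]
    rfl
  · intro k hk
    have hkn : ‖ι F (k : F)‖ ≤ 4 ^ j := norm_of_bd k hk
    have hHk : toF (H.sub 1 k 0 1) = scl ((M * n ^ 4 : ℕ) : F) (G.sub p' (p' * k + q') r' (r' * k + s')) := by
      rw [toF_sub', hHF, scl_sub, Q4.sub_sub]
      congr 2 <;> simp
    refine bnds K (K' + 2) T hK (by positivity) hT (M * n ^ 4) j G _ _ hHk p q r s ba bb bc bd be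
      (s * ι F p' + -q * ι F r') (-r * ι F p' + p * ι F r')
      (s * ι F q' + -q * ι F s' + ι F (k : F) * (s * ι F p' + -q * ι F r'))
      (-r * ι F q' + p * ι F s' + ι F (k : F) * (-r * ι F p' + p * ι F r')) ?_ ?_ ?_ ?_ ?_
    · refine e1.trans (hl.trans ?_)
      apply div_le_div_of_nonneg_right _ h2j.le
      linarith
    · refine e2.trans (hl.trans ?_)
      apply div_le_div_of_nonneg_right _ h2j.le
      linarith
    · have h1 := nadd e3 (nmul hkn e1)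
      refine h1.trans ?_
      have h2 : (4 : ℝ) ^ j * l ≤ K' * 2 ^ j := by
        have e4' : (4 : ℝ) ^ j = 2 ^ j * 2 ^ j := by rw [← mul_pow]; norm_num
        rw [e4']
        calc (2 : ℝ) ^ j * 2 ^ j * l ≤ 2 ^ j * 2 ^ j * (K' / 2 ^ j) :=
              mul_le_mul_of_nonneg_left hl (by positivity)
          _ = K' * 2 ^ j := by field_simp
      have h3 : K' / l ≤ 2 * 2 ^ j := by
        rw [pow_succ] at hj2
        linarith
      linarith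
    · have h1 := nadd e4 (nmul hkn e2)
      refine h1.trans ?_
      have h2 : (4 : ℝ) ^ j * l ≤ K' * 2 ^ j := by
        have e4' : (4 : ℝ) ^ j = 2 ^ j * 2 ^ j := by rw [← mul_pow]; norm_num
        rw [e4']
        calc (2 : ℝ) ^ j * 2 ^ j * l ≤ 2 ^ j * 2 ^ j * (K' / 2 ^ j) :=
              mul_le_mul_of_nonneg_left hl (by positivity)
          _ = K' * 2 ^ j := by field_simp
      have h3 : K' / l ≤ 2 * 2 ^ j := by
        rw [pow_succ] at hj2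
        linarith
      linarith
    · rw [mp_sub, Q4.sub_sub]
      congr 1
      · linear_combination (-ι F p') * hdet
      · simp only [map_add, map_mul]
        linear_combination (-(ι F q' + ι F p' * ι F (k : F))) * hdet
      · linear_combination (-ι F r') * hdet
      · simp only [map_add, map_mul]
        linear_combination (-(ι F s' + ι F r' * ι F (k : F))) * hdet

end nf

end Pool.Agent.L0h45.NF
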