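import Pool.Agent.L0h45.AR.Stm

/-!
# Project NF (helper45): the average of `2 ^ rank` on the vertical lines `y² = x³ + A x + B`, `A` fixed,
over every number field, uniformly in `A`

Statements of the modules. `Q4`, `Q4.I`, `Q4.J`, `Q4.sub` are in `Pool/Agent/L0h45/AR/Stm.lean`.
-/

set_option autoImplicit false

open Polynomial NumberField

namespace Pool.Agent.L0h45.NF

open Pool.Agent.L0h45.AR (Q4)

/-! ### Algebra over a field -/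

/-- the form after a homomorphism -/
def mapQ {R S : Type} [CommRing R] [CommRing S] (f : R →+* S) (G : Q4 R) : Q4 S :=
  ⟨f G.a, f G.b, f G.c, f G.d, f G.e⟩

section fld

variable {K : Type} [Field K]

/-- the cubic polynomial -/
noncomputable def cub (A B : K) : K[X] := X ^ 3 + C A * X + C B

/-- the algebra `K[θ]` -/
abbrev Alg (A B : K) : Type := AdjoinRoot (cub A B)

/-- `θ` -/
noncomputable abbrev th (A B : K) : Alg A B := AdjoinRoot.root (cub A B)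

/-- the number `z(G) = b² - 8 a c / 3 - 16 M a θ`; the form `G` has the invariants `- 48 M² A`, `- 1728 M³ B` -/
noncomputable def zz (A B M : K) (G : Q4 K) : Alg A B :=
  AdjoinRoot.of (cub A B) (G.b ^ 2 - 8 / 3 * (G.a * G.c)) - AdjoinRoot.of (cub A B) (16 * M * G.a) * th A B

/-- the curve -/
def crv (A B : K) : WeierstrassCurve K := ⟨0, 0, 0, A, B⟩

end fld

/-- B1: equivalent forms have `z` in the same class modulo squares (any determinant). -/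
def S_EQV : Prop := ∀ (K : Type) [Field K] [CharZero K] (A B M : K) (G : Q4 K) (p q r s : K),
  G.I = - 48 * M ^ 2 * A → G.J = - 1728 * M ^ 3 * B →
  IsSquare (zz A B M G * zz A B (M * (p * s - q * r) ^ 2) (G.sub p q r s))

/-- B2: if `x(P) - θ` is a square, then `P` is a double. -/
def S_HALF : Prop := ∀ (K : Type) [Field K] [CharZero K] [DecidableEq K] (A B : K),
  4 * A ^ 3 + 27 * B ^ 2 ≠ 0 → ∀ (x y : K) (h : (crv A B).toAffine.Nonsingular x y),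
  IsSquare (AdjoinRoot.of (cub A B) x - th A B) → ∃ Q : (crv A B).toAffine.Point, Q + Q = .some x y h

/-- B3: if `(x(P) - θ) (x(P') - θ)` is a square, and `P`, `P'` are not of order `2`, then `P - P'` is a double. -/
def S_PAIR : Prop := ∀ (K : Type) [Field K] [CharZero K] [DecidableEq K] (A B : K),
  4 * A ^ 3 + 27 * B ^ 2 ≠ 0 → ∀ (x y x' y' : K)
  (h : (crv A B).toAffine.Nonsingular x y) (h' : (crv A B).toAffine.Nonsingular x' y'), y ≠ 0 → y' ≠ 0 →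
  IsSquare ((AdjoinRoot.of (cub A B) x - th A B) * (AdjoinRoot.of (cub A B) x' - th A B)) →
  ∃ Q : (crv A B).toAffine.Point, Q + Q + .some x' y' h' = .some x y h

/-! ### Forms over the integers of a number field -/

section nf

variable {F : Type} [Field F] [NumberField F]

/-- the form over the field -/
noncomputable def toF (G : Q4 (𝓞 F)) : Q4 F := mapQ (algebraMap (𝓞 F) F) G

/-- equivalence under `SL₂(𝓞 F)` -/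
def Eqv (G G' : Q4 (𝓞 F)) : Prop := ∃ p q r s : 𝓞 F, p * s - q * r = 1 ∧ G' = G.sub p q r s

/-- no zero in `ℙ¹(F)`: the value `G(p, r)` is the first coefficient of `G.sub p 0 r 0` -/
def NoRoot (G : Q4 (𝓞 F)) : Prop := ∀ p r : 𝓞 F, (p ≠ 0 ∨ r ≠ 0) → (G.sub p 0 r 0).a ≠ 0

/-- all conjugates of `x` are at most `R` in absolute value -/
def Bd (x : 𝓞 F) (R : ℝ) : Prop := ∀ σ : F →+* ℂ, ‖σ (x : F)‖ ≤ R

/-- the absolute value of the norm -/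
noncomputable def Nm (a : 𝓞 F) : ℝ := (Ideal.absNorm (Ideal.span {a}) : ℝ)

/-- the norm of an ideal -/
noncomputable def NI (𝔞 : Ideal (𝓞 F)) : ℝ := (Ideal.absNorm 𝔞 : ℝ)

/-- the number of the divisors of an ideal -/
noncomputable def tau (𝔞 : Ideal (𝓞 F)) : ℝ := ({𝔡 : Ideal (𝓞 F) | 𝔡 ∣ 𝔞}.ncard : ℝ)

/-- the ideal `(12 a, 3 b)` -/
noncomputable def gd (a b : 𝓞 F) : Ideal (𝓞 F) := Ideal.span {12 * a, 3 * b}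

/-- the box of the level `j` -/
def Box (L : ℝ) (j : ℕ) (G : Q4 (𝓞 F)) : Prop :=
  Bd G.a (L / 16 ^ j) ∧ Bd G.b (L / 4 ^ j) ∧ Bd G.c L ∧ Bd G.d (L * 4 ^ j) ∧ Bd G.e (L * 16 ^ j)

end nf

/-- B0: the integral form of a point. -/
def S_FP : Prop := ∀ (F : Type) [Field F] [NumberField F], ∃ M : ℕ, M ≠ 0 ∧ ∀ (A B : 𝓞 F) (x y : F),
  y ^ 2 = x ^ 3 + A * x + B → ∃ (G : Q4 (𝓞 F)) (t : F), t ≠ 0 ∧
    G.I = - 48 * M ^ 2 * A ∧ G.J = - 1728 * M ^ 3 * B ∧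
    zz (A : F) (B : F) (M : F) (toF G) =
      AdjoinRoot.of (cub (A : F) (B : F)) (t ^ 2) * (AdjoinRoot.of (cub (A : F) (B : F)) x - th (A : F) (B : F))

/-- B0a: denominators. -/
def S_DEN : Prop := ∀ (F : Type) [Field F] [NumberField F], ∃ m : ℕ, m ≠ 0 ∧ ∀ (A B : 𝓞 F) (x y : F),
  y ^ 2 = x ^ 3 + A * x + B → ∃ r s t u w : 𝓞 F, t ≠ 0 ∧ x * (t : F) ^ 2 = r ∧ y * (t : F) ^ 3 = s ∧
    u * r + w * t ^ 8 = m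

/-- E: many inequivalent quartic forms. -/
def S_COS : Prop := ∀ (F : Type) [Field F] [NumberField F] [DecidableEq F], ∃ M : ℕ, M ≠ 0 ∧
  ∀ A B : 𝓞 F, 4 * A ^ 3 + 27 * B ^ 2 ≠ 0 → ∃ S : Finset (Q4 (𝓞 F)),
    2 ^ Module.finrank ℤ (crv (A : F) (B : F)).toAffine.Point ≤ S.card + 5 ∧
    (∀ G ∈ S, G.I = - 48 * M ^ 2 * A ∧ G.J = - 1728 * M ^ 3 * B ∧ NoRoot G) ∧
    ∀ G ∈ S, ∀ G' ∈ S, G ≠ G' → ¬ Eqv G G'

/-! ### Counting -/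

/-- C1: the number of the points of a class modulo an ideal in a product of discs (only differences matter) -/
def S_BOX : Prop := ∀ (F : Type) [Field F] [NumberField F] (𝔞 : Ideal (𝓞 F)), 𝔞 ≠ ⊥ →
  ∀ ρ : (F →+* ℂ) → ℝ, (∀ σ, 0 < ρ σ) → ∀ S : Finset (𝓞 F),
  (∀ x ∈ S, ∀ y ∈ S, x - y ∈ 𝔞 ∧ ∀ σ : F →+* ℂ, ‖σ ((x - y : 𝓞 F) : F)‖ ≤ ρ σ) →
  (S.card : ℝ) ≤ 16 * ((∏ σ, ρ σ) / NI 𝔞 + 1)

/-- C2: the sum of `1 / √N(a)` over the multiples of an ideal -/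
def S_SUMN : Prop := ∀ (F : Type) [Field F] [NumberField F], ∃ C : ℝ, 0 < C ∧
  ∀ 𝔤 : Ideal (𝓞 F), 𝔤 ≠ ⊥ → ∀ P : ℝ, 0 < P → ∀ S : Finset (𝓞 F),
  (∀ a ∈ S, a ≠ 0 ∧ a ∈ 𝔤 ∧ Bd a P) →
  ∑ a ∈ S, (√(Nm a))⁻¹ ≤ C * √(P ^ Module.finrank ℚ F) / NI 𝔤

/-- C3: a Dirichlet series over the ideals -/
def S_ZETA : Prop := ∀ (F : Type) [Field F] [NumberField F], ∃ C : ℝ, 0 < C ∧
  ∀ T : Finset (Ideal (𝓞 F)), (∀ 𝔥 ∈ T, 𝔥 ≠ ⊥) →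
  ∑ 𝔥 ∈ T, tau 𝔥 / (NI 𝔥 * √(NI 𝔥)) ≤ C

/-- C4: the sum over pairs -/
def S_GCD : Prop := ∀ (F : Type) [Field F] [NumberField F], ∃ C : ℝ, 0 < C ∧
  ∀ P Q : ℝ, 0 < P → 0 < Q → ∀ S : Finset (𝓞 F × 𝓞 F),
  (∀ z ∈ S, z.1 ≠ 0 ∧ z.2 ≠ 0 ∧ Bd z.1 P ∧ Bd z.2 Q) →
  ∑ z ∈ S, tau (gd z.1 z.2) * √(NI (gd z.1 z.2)) / √(Nm z.1 * Nm z.2) ≤
    C * √((P * Q) ^ Module.finrank ℚ F)

/-- C5: the number of the `c` with `c² = ν` modulo `𝔤` -/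
def S_CSQ : Prop := ∀ (F : Type) [Field F] [NumberField F] (𝔤 : Ideal (𝓞 F)), 𝔤 ≠ ⊥ →
  ∀ (ν : 𝓞 F) (L : ℝ), 0 < L → ∀ S : Finset (𝓞 F), (∀ c ∈ S, c ^ 2 - ν ∈ 𝔤 ∧ Bd c L) →
  (S.card : ℝ) ≤ 16 * tau 𝔤 * ((2 * L) ^ Module.finrank ℚ F / √(NI 𝔤) + 1)

/-- C6: the number of the pairs `(d, e)` with `12 a e - 3 b d = m` in a box -/
def S_DE : Prop := ∀ (F : Type) [Field F] [NumberField F] (a b m : 𝓞 F), a ≠ 0 → b ≠ 0 →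
  ∀ D E : ℝ, 0 < D → 0 < E → ∀ S : Finset (𝓞 F × 𝓞 F),
  (∀ z ∈ S, 12 * a * z.2 - 3 * b * z.1 = m ∧ Bd z.1 D ∧ Bd z.2 E) →
  (S.card : ℝ) ≤ 16 * (NI (gd a b) * √((D * E) ^ Module.finrank ℚ F) / √(Nm a * Nm b) + 1)

/-- C7: the number of the forms with given invariant `I` in a box -/
def S_BOXI : Prop := ∀ (F : Type) [Field F] [NumberField F], ∃ C : ℝ, 0 < C ∧
  ∀ (j : ℕ) (L : ℝ), 1 ≤ L → ∀ (ν : 𝓞 F) (S : Finset (Q4 (𝓞 F))),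
  (∀ G ∈ S, G.a ≠ 0 ∧ G.I = ν ∧ Box L j G) → (S.card : ℝ) ≤ C * (L ^ Module.finrank ℚ F) ^ 3

/-- C8: many integers in a box -/
def S_UNI : Prop := ∀ (F : Type) [Field F] [NumberField F], ∃ c : ℝ, 0 < c ∧ ∀ R : ℝ, 1 ≤ R →
  {k : 𝓞 F | Bd k R}.Finite ∧ c * R ^ Module.finrank ℚ F ≤ ({k : 𝓞 F | Bd k R}.ncard : ℝ)

/-! ### Reduction -/

/-- D1 over the complex numbers -/
def S_D1C : Prop := ∀ (G : Q4 ℂ) (T : ℝ), 0 < T → G.J ^ 2 ≠ 4 * G.I ^ 3 → ‖G.I‖ ^ 3 + ‖G.J‖ ^ 2 ≤ T ^ 6 →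
  ∃ p q r s : ℂ, p * s - q * r = 1 ∧ ‖(G.sub p q r s).a‖ ≤ T ∧ ‖(G.sub p q r s).b‖ ≤ T ∧
    ‖(G.sub p q r s).c‖ ≤ T ∧ ‖(G.sub p q r s).d‖ ≤ T ∧ ‖(G.sub p q r s).e‖ ≤ T

/-- D1 at all embeddings -/
def S_D1E : Prop := ∃ C : ℝ, 0 < C ∧ ∀ (F : Type) [Field F] [NumberField F] (G : Q4 (𝓞 F)) (T : ℝ), 0 < T →
  G.J ^ 2 ≠ 4 * G.I ^ 3 → (∀ σ : F →+* ℂ, ‖σ (G.I : F)‖ ^ 3 + ‖σ (G.J : F)‖ ^ 2 ≤ T ^ 6) →
  ∃ p q r s : (F →+* ℂ) → ℂ, (∀ σ, p σ * s σ - q σ * r σ = 1) ∧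
    (∀ σ, p (ComplexEmbedding.conjugate σ) = (starRingEnd ℂ) (p σ) ∧
      q (ComplexEmbedding.conjugate σ) = (starRingEnd ℂ) (q σ) ∧
      r (ComplexEmbedding.conjugate σ) = (starRingEnd ℂ) (r σ) ∧
      s (ComplexEmbedding.conjugate σ) = (starRingEnd ℂ) (s σ)) ∧
    ∀ σ, ‖((mapQ σ (toF G)).sub (p σ) (q σ) (r σ) (s σ)).a‖ ≤ C * T ∧
      ‖((mapQ σ (toF G)).sub (p σ) (q σ) (r σ) (s σ)).b‖ ≤ C * T ∧
      ‖((mapQ σ (toF G)).sub (p σ) (q σ) (r σ) (s σ)).c‖ ≤ C * T ∧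
      ‖((mapQ σ (toF G)).sub (p σ) (q σ) (r σ) (s σ)).d‖ ≤ C * T ∧
      ‖((mapQ σ (toF G)).sub (p σ) (q σ) (r σ) (s σ)).e‖ ≤ C * T

/-- the length of `(u, v)` in the norms given by the matrices `(p, q; r, s)` -/
noncomputable def HH {F : Type} [Field F] [NumberField F] (p q r s : (F →+* ℂ) → ℂ) (u v : 𝓞 F) : ℝ :=
  ∑ σ : F →+* ℂ, (‖p σ * σ (u : F) + q σ * σ (v : F)‖ ^ 2 + ‖r σ * σ (u : F) + s σ * σ (v : F)‖ ^ 2)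

/-- D2: two short vectors of `(𝓞 F)²`, linearly independent -/
def S_RED : Prop := ∀ (F : Type) [Field F] [NumberField F], ∃ C : ℝ, 0 < C ∧
  ∀ p q r s : (F →+* ℂ) → ℂ, (∀ σ, p σ * s σ - q σ * r σ = 1) →
    (∀ σ, p (ComplexEmbedding.conjugate σ) = (starRingEnd ℂ) (p σ) ∧
      q (ComplexEmbedding.conjugate σ) = (starRingEnd ℂ) (q σ) ∧
      r (ComplexEmbedding.conjugate σ) = (starRingEnd ℂ) (r σ) ∧
      s (ComplexEmbedding.conjugate σ) = (starRingEnd ℂ) (s σ)) →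
    ∃ x y z w : 𝓞 F, x * w - y * z ≠ 0 ∧ HH p q r s x z ≤ HH p q r s y w ∧
      HH p q r s x z * HH p q r s y w ≤ C

/-- D3: the boxes -/
def S_STEP : Prop := ∀ (F : Type) [Field F] [NumberField F], ∃ C : ℝ, 0 < C ∧
  ∀ (G : Q4 (𝓞 F)) (T : ℝ), 0 < T → G.J ^ 2 ≠ 4 * G.I ^ 3 →
  (∀ σ : F →+* ℂ, ‖σ (G.I : F)‖ ^ 3 + ‖σ (G.J : F)‖ ^ 2 ≤ T ^ 6) →
  ∃ (j : ℕ) (x y z w : 𝓞 F), x * w - y * z ≠ 0 ∧ Bd (x * w - y * z) C ∧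
    ∀ k : 𝓞 F, Bd k (4 ^ j) → Box (C * T) j (G.sub x (y + k * x) z (w + k * z))

/-- D4: the number of the classes with given invariant `I` -/
def S_CLS : Prop := ∀ (F : Type) [Field F] [NumberField F], ∃ C : ℝ, 0 < C ∧
  ∀ (T : ℝ), 1 ≤ T → ∀ (ν : 𝓞 F) (S : Finset (Q4 (𝓞 F))),
  (∀ G ∈ S, NoRoot G ∧ G.I = ν ∧ G.J ^ 2 ≠ 4 * G.I ^ 3 ∧
    ∀ σ : F →+* ℂ, ‖σ (G.I : F)‖ ^ 3 + ‖σ (G.J : F)‖ ^ 2 ≤ T ^ 6) →
  (∀ G ∈ S, ∀ G' ∈ S, G ≠ G' → ¬ Eqv G G') → (S.card : ℝ) ≤ C * (T ^ Module.finrank ℚ F) ^ 3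

/-! ### The theorem -/

/-- G: the sum over the curves on a vertical line -/
def S_LINE : Prop := ∀ (F : Type) [Field F] [NumberField F] [DecidableEq F], ∃ C : ℝ, 0 < C ∧
  ∀ X : ℝ, 1 ≤ X → ∀ A : 𝓞 F, (∀ σ : F →+* ℂ, ‖σ (A : F)‖ ^ 3 ≤ X ^ 2) → ∀ S : Finset (𝓞 F),
  (∀ B ∈ S, 4 * A ^ 3 + 27 * B ^ 2 ≠ 0 ∧ Bd B X) →
  ∑ B ∈ S, (2 : ℝ) ^ Module.finrank ℤ (crv (A : F) (B : F)).toAffine.Point ≤
    C * X ^ Module.finrank ℚ F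

end Pool.Agent.L0h45.NF
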